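import Pool.Agent.W2helper37.SG.Stm

/-!
# Piece BRX of project SG: the symmetry and even or odd operators
-/

set_option autoImplicit false
set_option linter.unusedSectionVars false
set_option linter.unusedSimpArgs false
set_option backward.isDefEq.respectTransparency false
set_option backward.defeqAttrib.useBackward true

open CategoryTheory Limits MonoidalCategory
open Pool.Agent.Y112.SR Pool.Agent.Y112.KD Pool.Agent.Y112.SC
open Pool.Agent.W2helper37.SG

namespace Pool.Agent.W2helper71.SG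

universe v u w

open Functor.LaxMonoidal Functor.OplaxMonoidal

section

variable {C : Type u} [Category.{v} C] [Preadditive C] [MonoidalCategory C] [SymmetricCategory C]
  {K : Type w} [Field K] (R : SuperRealisation C K)

/-- The symmetry and operators which are compatible with the sign operator. -/
lemma bx_braid_gen (h2 : (2 : K) ≠ 0) {M X : C} (c : R.H.obj M ⟶ R.H.obj M)
    (d d' : R.H.obj X ⟶ R.H.obj X)
    (h3 : (c ⊗ₘ d) ≫ (𝟙 _ + R.par M ▷ R.H.obj X + R.H.obj M ◁ R.par X - (R.par M ⊗ₘ R.par X)) =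
      (𝟙 _ + R.par M ▷ R.H.obj X + R.H.obj M ◁ R.par X - (R.par M ⊗ₘ R.par X)) ≫ (c ⊗ₘ d')) :
    bx R c d ≫ R.H.map (β_ M X).hom = R.H.map (β_ M X).hom ≫ bx R d' c := by
  have h4 : (2 : K) • ((c ⊗ₘ d) ≫ μ R.H M X ≫ R.H.map (β_ M X).hom) =
      (2 : K) • (μ R.H M X ≫ R.H.map (β_ M X).hom ≫ δ R.H X M ≫ (d' ⊗ₘ c) ≫ μ R.H X M) := by
    rw [← Linear.comp_smul, R.symm, ← Category.assoc (c ⊗ₘ d), h3, Category.assoc,
      BraidedCategory.braiding_naturality_assoc]
    have h5 : (2 : K) • (μ R.H M X ≫ R.H.map (β_ M X).hom ≫ δ R.H X M ≫ (d' ⊗ₘ c) ≫ μ R.H X M) =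
        ((2 : K) • (μ R.H M X ≫ R.H.map (β_ M X).hom)) ≫ δ R.H X M ≫ (d' ⊗ₘ c) ≫ μ R.H X M := by
      rw [Linear.smul_comp, Category.assoc]
    rw [h5, R.symm]
    simp only [Category.assoc, Functor.Monoidal.μ_δ_assoc]
  have h5 := congrArg (fun z => (2 : K)⁻¹ • z) h4
  simp only [smul_smul, inv_mul_cancel₀ h2, one_smul] at h5
  rw [bx, Category.assoc, Category.assoc, h5, bx, Functor.Monoidal.δ_μ_assoc]

lemma bx_braid_conj (h2 : (2 : K) ≠ 0) {M X : C} (c : R.H.obj M ⟶ R.H.obj M)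
    (d d' : R.H.obj X ⟶ R.H.obj X)
    (h3 : (c ⊗ₘ d) ≫ (𝟙 _ + R.par M ▷ R.H.obj X + R.H.obj M ◁ R.par X - (R.par M ⊗ₘ R.par X)) =
      (𝟙 _ + R.par M ▷ R.H.obj X + R.H.obj M ◁ R.par X - (R.par M ⊗ₘ R.par X)) ≫ (c ⊗ₘ d')) :
    R.H.map (β_ M X).hom ≫ bx R d' c ≫ R.H.map (β_ X M).hom = bx R c d := by
  rw [← Category.assoc, ← bx_braid_gen R h2 c d d' h3, Category.assoc, ← Functor.map_comp,
    SymmetricCategory.symmetry, CategoryTheory.Functor.map_id, Category.comp_id]

end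

/-- BRX -/
theorem p_brx : P_BRX.{u, v, w} := by
  intro C _ _ _ _ _ _ _ _ K _ R M X c d
  have hc := R_charZero R
  have h2 : (2 : K) ≠ 0 := two_ne_zero
  refine ⟨fun h1 h1' => bx_braid_conj R h2 c d d ?_, fun h1 => bx_braid_conj R h2 c (R.par X) (𝟙 _) ?_⟩
  · simp only [Preadditive.sub_comp, Preadditive.add_comp, Preadditive.comp_sub,
      Preadditive.comp_add, Category.id_comp, Category.comp_id, ← tensorHom_id, ← id_tensorHom,
      tensorHom_comp_tensorHom, h1, h1']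
  · have h6 : ∀ (a b : R.H.obj M ⟶ R.H.obj M) (e : R.H.obj X ⟶ R.H.obj X), a = -b →
        (a ⊗ₘ e) = -(b ⊗ₘ e) := by
      intro a b e h
      subst h
      have h7 : ((-b) ⊗ₘ e) + (b ⊗ₘ e) = 0 := by
        rw [← MonoidalPreadditive.add_tensor, neg_add_cancel]
        simp [MonoidalCategory.tensorHom_def]
      exact eq_neg_of_add_eq_zero_left h7
    simp only [Preadditive.sub_comp, Preadditive.add_comp, Preadditive.comp_sub,
      Preadditive.comp_add, Category.id_comp, Category.comp_id, ← tensorHom_id, ← id_tensorHom,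
      tensorHom_comp_tensorHom, R.par_sq]
    rw [h6 _ _ (R.par X) h1, h6 _ _ (𝟙 _) h1]
    abel

end Pool.Agent.W2helper71.SG
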