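import Pool.Agent.W2helper37.SG.Stm3
import Pool.Agent.W2helper49.SG.Tew
import Pool.Agent.W2helper59.SG.Sel

/-!
# Project SG, piece TWO: the weights for `M` and for a tensor product
-/

set_option autoImplicit false
set_option linter.unusedSectionVars false
set_option linter.unusedSimpArgs false
set_option backward.isDefEq.respectTransparency false
set_option backward.defeqAttrib.useBackward true

open CategoryTheory Limits MonoidalCategory
open Pool.Agent.Y112.SR Pool.Agent.Y112.SC Pool.Agent.W2helper37.SG
open Pool.Agent.Y112.KD hiding cc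

namespace Pool.Agent.W2helper71.SG

universe v u w

open scoped TensorProduct
open Functor.LaxMonoidal Functor.OplaxMonoidal

section

variable {C : Type u} [Category.{v} C] [Preadditive C] [Linear ℚ C] [MonoidalCategory C]
  [MonoidalPreadditive C] [MonoidalLinear ℚ C] [SymmetricCategory C] [RightRigidCategory C]
  {K : Type w} [Field K] (R : SuperRealisation C K) {X Y : C}

theorem sum_smul_mt {ι : Type} [Fintype ι] [DecidableEq ι] (o : ι → Bool)
    (A : ι → ι → Module.End K (R.H.obj X)) (B : ι → ι → Module.End K (R.H.obj Y)) (N : ι → K)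
    (S : Finset ι) (x : R.H.obj X) (y : R.H.obj Y) :
    (∑ i ∈ S, N i • tenA R o A B i i) (W2helper49.SG.mt R x y) =
      W2helper49.SG.mt R ((∑ i ∈ S, N i • A i i) x) y +
        W2helper49.SG.mt R x ((∑ i ∈ S, N i • B i i) y) := by
  classical
  induction S using Finset.induction_on with
  | empty =>
    simp only [Finset.sum_empty, LinearMap.zero_apply]
    have h1 := W2helper49.SG.mt_smul_left R (0 : K) (0 : R.H.obj X) y
    have h2 := W2helper49.SG.mt_smul_right R (0 : K) x (0 : R.H.obj Y)
    rw [zero_smul, zero_smul] at h1 h2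
    rw [h1, h2, add_zero]
  | insert i S hi ih =>
    rw [Finset.sum_insert hi, Finset.sum_insert hi, Finset.sum_insert hi, LinearMap.add_apply,
      LinearMap.add_apply, LinearMap.add_apply, ih, LinearMap.smul_apply, LinearMap.smul_apply,
      LinearMap.smul_apply, W2helper49.SG.tenA_mt, W2helper49.SG.mt_add_left,
      W2helper49.SG.mt_add_right, W2helper49.SG.mt_smul_left, W2helper49.SG.mt_smul_right,
      smul_add]
    abel

end

/-- **TWO** -/
theorem p_two : P_TWO.{v, u, w} := by
  intro C _ _ _ _ _ _ _ _ K _ R M ι _ _ o σ γ N e hF hU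
  constructor
  · obtain ⟨v, hv⟩ := W2helper59.SG.exists_basis R hU
    have hpar := W2helper59.SG.par_basis R hU v hv
    refine ⟨ι, inferInstance, v, fun x => -N x, fun x => ?_, fun x => ?_⟩
    · rw [LinearMap.sum_apply, Finset.sum_eq_single x]
      · rw [LinearMap.smul_apply, LinearMap.smul_apply, hv, if_pos rfl, smul_smul]
        congr 1
        beta_reduce
        cases hx : o x
        · simp [hF.even x hx]
        · simp [cc]
      · intro k _ hk
        rw [LinearMap.smul_apply, LinearMap.smul_apply, hv, if_neg (Ne.symm hk), smul_zero,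
          smul_zero]
      · intro h
        exact absurd (Finset.mem_univ _) h
    · rw [hpar]
      congr 1
      beta_reduce
      cases hx : o x
      · rw [hF.even x hx]
        simp [sg]
      · rcases hF.odd x hx with h | h
        · rw [h]
          simp [sg]
        · rw [h]
          simp [sg]
  · intro X Y A B hA hB
    obtain ⟨κ, _, u, n, h1, h2⟩ := hA
    obtain ⟨κ', _, u', n', h1', h2'⟩ := hB
    classical
    let e : (R.H.obj X ⊗[K] R.H.obj Y) ≃ₗ[K] R.H.obj (X ⊗ Y) :=
      (Functor.Monoidal.μIso R.H X Y).toLinearEquiv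
    let bb : Module.Basis (κ × κ') K (R.H.obj (X ⊗ Y)) := (u.tensorProduct u').map e
    have hbb : ∀ p, bb p = W2helper49.SG.mt R (u p.1) (u' p.2) := by
      intro p
      show e ((u.tensorProduct u') p) = _
      rw [Module.Basis.tensorProduct_apply']
      rfl
    refine ⟨κ × κ', inferInstance, bb, fun p => n p.1 + n' p.2, fun p => ?_, fun p => ?_⟩
    · rw [hbb, sum_smul_mt, h1, h1', W2helper49.SG.mt_smul_left, W2helper49.SG.mt_smul_right,
        ← add_smul]
      congr 1
      push_cast
      ring
    · rw [hbb, ← bx_par, W2helper49.SG.bx_mt, h2, h2', W2helper49.SG.mt_smul_left,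
        W2helper49.SG.mt_smul_right, smul_smul, zpow_add₀ (by norm_num)]

end Pool.Agent.W2helper71.SG
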